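import Pool.Agent.helper90.FN.Spec

/-!
Module fn:AP of MP_5ae64c_pr: a priori bound for the conditional expectation given a skeleton.
-/

set_option autoImplicit false

open scoped BigOperators Topology
open Filter MeasureTheory

namespace Pool.Agent.helper90.FN

open Finset
open Pool.Agent.helper72.UT (IsFor dep pth rt fors Reg lz mem_fors fors_nonempty)
open Pool.Agent.helper20.HP (ind HW W Par cc run lel lst lazyP tmix ustE height vol Setup CZ CP IsKer)

lemma AP_ind_le {p : Prop} {a : ℝ} (h : p → 1 ≤ a) (ha : 0 ≤ a) : ind p ≤ a := by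
  unfold ind
  split_ifs with hp
  · exact h hp
  · exact ha

lemma AP_ind_mono {p q : Prop} (h : p → q) : ind p ≤ ind q := by
  unfold ind
  split_ifs with h1 h2
  · exact le_rfl
  · exact absurd (h h1) h2
  · exact zero_le_one
  · exact le_rfl

lemma AP_EF_mono {V : Type} [Fintype V] [DecidableEq V] (G : SimpleGraph V) (B : Finset V)
    {F F' : (V → V) → ℝ} (h : ∀ f ∈ fors G B, F f ≤ F' f) : EF G B F ≤ EF G B F' := by
  unfold EF
  exact div_le_div_of_nonneg_right (Finset.sum_le_sum h) (Nat.cast_nonneg _)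

lemma AP_EF_mul {V : Type} [Fintype V] [DecidableEq V] (G : SimpleGraph V) (B : Finset V)
    (F : (V → V) → ℝ) (c : ℝ) : EF G B (fun f => F f * c) = EF G B F * c := by
  unfold EF
  rw [← Finset.sum_mul, div_mul_eq_mul_div]

/-- Jensen -/
lemma AP_jensen {V : Type} [Fintype V] [DecidableEq V] (G : SimpleGraph V) (B : Finset V)
    (hB : 0 < (fors G B).card) (X : (V → V) → ℝ) (ν : ℝ) :
    Real.exp (ν * EF G B X) ≤ EF G B (fun g => Real.exp (ν * X g)) := by
  have hc : (0 : ℝ) < (fors G B).card := by exact_mod_cast hB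
  set m := ν * EF G B X with hm
  have h1 : ∀ g ∈ fors G B, Real.exp m * (1 - m) + (Real.exp m * ν) * X g
      ≤ Real.exp (ν * X g) := by
    intro g _
    have h2 : Real.exp (ν * X g) = Real.exp m * Real.exp (ν * X g - m) := by
      rw [← Real.exp_add]; congr 1; ring
    rw [h2]
    have h3 := Real.add_one_le_exp (ν * X g - m)
    have h4 := Real.exp_pos m
    nlinarith
  have h5 := Finset.sum_le_sum h1
  rw [Finset.sum_add_distrib, Finset.sum_const, nsmul_eq_mul, ← Finset.mul_sum] at h5
  have h6 : ∑ g ∈ fors G B, X g = EF G B X * (fors G B).card := by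
    unfold EF; field_simp
  rw [h6] at h5
  unfold EF
  rw [le_div_iff₀ hc]
  refine le_trans (le_of_eq ?_) h5
  have h7 : ν * EF G B X = m := hm.symm
  calc Real.exp m * ((fors G B).card : ℝ)
      = ((fors G B).card : ℝ) * (Real.exp m * (1 - m)) + Real.exp m * m * (fors G B).card := by ring
    _ = _ := by rw [← h7]; ring

theorem AP (hG1 : G1_stmt) (hG3 : G3_stmt) (hG4 : G4_stmt) (hEM : EM_stmt) (hHY2 : HY2_stmt) :
    AP_stmt := by
  intro V _ _ G d K θ h₀ hreg hK hpar o l r w A u hA hw hrw hu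
  have hwR : (1 : ℝ) ≤ w := by exact_mod_cast hw
  set s : ℝ := (Nat.sqrt (Fintype.card V) : ℝ) with hs
  have hs0 : 1 ≤ s := by
    by_contra hcon
    have h1 : Nat.sqrt (Fintype.card V) = 0 := by
      by_contra h0
      apply hcon
      have : 1 ≤ Nat.sqrt (Fintype.card V) := Nat.one_le_iff_ne_zero.2 h0
      rw [hs]
      exact_mod_cast this
    have h2 : s = 0 := by rw [hs, h1]; simp
    rw [h2] at hrw
    have : (0 : ℝ) ≤ r := Nat.cast_nonneg _
    linarith
  have hP : 0 ≤ CP θ := by
    unfold CP CZ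
    have := hpar.one_le
    positivity
  set P := CP θ with hPdef
  have hAs : 1 ≤ A * s := by nlinarith
  have hAs0 : 0 < A * s := by linarith
  set μ : ℝ := 1 / (A * s) with hμ
  have hμ0 : 0 < μ := by positivity
  have ha : 0 ≤ 3 * P * w := by positivity
  set a : ℝ := 3 * P * w with hadef
  set ν : ℝ := μ / (1 + a) with hν
  have hν0 : 0 ≤ ν := by positivity
  have hνa : ν * (1 + a) = μ := by rw [hν]; field_simp
  have hne : ({o} : Finset V).Nonempty := ⟨o, Finset.mem_singleton_self o⟩
  have hr0 : (0 : ℝ) ≤ r := Nat.cast_nonneg _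
  have hμrw : μ * (r + w) ≤ 1 := by
    rw [hμ, div_mul_eq_mul_div, one_mul, div_le_one hAs0]
    exact hrw
  have hHyp := hHY2 V G d K θ h₀ hreg hK hpar {o} hne r w μ hμ0.le hμrw
  have hEM' := hEM V G {o} μ a (a * (s + r + w)) r w hreg.conn hne ha (by positivity) hμ0.le hHyp
    ν hν0 hνa.le {o} (Finset.Subset.refl _) {o} (Finset.Subset.refl _) (fun _ => 0)
  set F0 : (V → V) → ℝ := nb {o} {o} (fun _ => 0) r w with hF0
  obtain ⟨-, -, hcl, hstop, -⟩ := hG4 V G {o}
  have htow := hG3 V G {o} (fun f => sk {o} f l) (hcl l) (hstop l) (fun f => Real.exp (ν * F0 f))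
  -- pointwise comparison
  have hcmp : ∀ f ∈ fors G {o}, ∀ g ∈ fors G (sk {o} f l),
      nb (sk {o} f l) (sk {o} f l) (dep {o} f) r w g ≤ F0 (glue (sk {o} f l) f g) := by
    intro f hf g hg
    have hc := hcl l f hf
    obtain ⟨g1, g2, g3, g4⟩ := hG1 V G {o} (sk {o} f l) f g hf hc hg
    rw [hF0]
    unfold nb
    refine Finset.sum_le_sum (fun v _ => AP_ind_mono ?_)
    rintro ⟨h1, h2, h3, h4⟩
    have hlv : lv {o} (fun _ => 0) (glue (sk {o} f l) f g) v = lv (sk {o} f l) (dep {o} f) g v := by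
      unfold lv
      rw [g3 v]; ring
    refine ⟨fun h => h1 (hc.sub h), (mem_fors.1 g1).rt_mem_B v, ?_, ?_⟩
    · rw [hlv]; exact h3
    · rw [hlv]; exact h4
  have hmain : EF G {o} (fun f => ind (u * (w * s) <
        EF G (sk {o} f l) (nb (sk {o} f l) (sk {o} f l) (dep {o} f) r w))) ≤
      EF G {o} (fun f => EF G (sk {o} f l) (fun g => Real.exp (ν * F0 (glue (sk {o} f l) f g)))
        * Real.exp (-(ν * (u * (w * s))))) := by
    apply AP_EF_mono
    intro f hf
    have hne2 : (sk {o} f l).Nonempty := ⟨o, (hcl l f hf).sub (Finset.mem_singleton_self o)⟩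
    have hcard : 0 < (fors G (sk {o} f l)).card :=
      Finset.card_pos.2 (fors_nonempty hreg.conn hne2)
    have h1 : EF G (sk {o} f l) (nb (sk {o} f l) (sk {o} f l) (dep {o} f) r w) ≤
        EF G (sk {o} f l) (fun g => F0 (glue (sk {o} f l) f g)) := AP_EF_mono _ _ (hcmp f hf)
    have h2 := AP_jensen G (sk {o} f l) hcard (fun g => F0 (glue (sk {o} f l) f g)) ν
    refine AP_ind_le ?_ ?_
    · intro h3
      refine le_trans ?_ (mul_le_mul_of_nonneg_right h2 (Real.exp_pos _).le)
      rw [← Real.exp_add]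
      apply Real.one_le_exp
      have h4 : u * (w * s) ≤ EF G (sk {o} f l) (fun g => F0 (glue (sk {o} f l) f g)) :=
        h3.le.trans h1
      nlinarith [mul_le_mul_of_nonneg_left h4 hν0]
    · refine mul_nonneg ?_ (Real.exp_pos _).le
      exact le_trans (Real.exp_pos _).le h2
  refine hmain.trans ?_
  rw [AP_EF_mul, ← htow]
  refine (mul_le_mul_of_nonneg_right hEM' (Real.exp_pos _).le).trans ?_
  rw [← Real.exp_add]
  apply Real.exp_le_exp.2
  rw [Finset.card_singleton, Nat.cast_one, mul_one]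
  -- numerics
  have hk1 : ν * a ≤ μ := by nlinarith
  have hμ1 : μ ≤ 1 := by
    rw [hμ, div_le_one hAs0]; exact hAs
  have hμs : μ * s ≤ 1 := by
    rw [hμ, div_mul_eq_mul_div, one_mul, div_le_one hAs0]
    nlinarith
  have hk2 : ν * (a + a * (s + r + w)) ≤ 3 := by
    have e : ν * (a + a * (s + r + w)) = (ν * a) * (1 + s + r + w) := by ring
    rw [e]
    have : (ν * a) * (1 + s + r + w) ≤ μ * (1 + s + r + w) :=
      mul_le_mul_of_nonneg_right hk1 (by positivity)
    nlinarith
  have hk3 : u / (A * (1 + 3 * P)) ≤ ν * (u * (w * s)) := by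
    have e : ν * (u * (w * s)) = u * w / (A * (1 + a)) := by
      rw [hν, hμ]; field_simp
    rw [e, hadef, div_le_div_iff₀ (by positivity) (by positivity)]
    have h1 : (1 : ℝ) + 3 * P * w ≤ w * (1 + 3 * P) := by nlinarith
    calc u * (A * (1 + 3 * P * w)) ≤ u * (A * (w * (1 + 3 * P))) := by
          apply mul_le_mul_of_nonneg_left _ hu
          apply mul_le_mul_of_nonneg_left h1 (by linarith)
      _ = u * w * (A * (1 + 3 * P)) := by ring
  linarith

end Pool.Agent.helper90.FN
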